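import Pool.Agent.V7H75.WS.Spec

set_option autoImplicit false

/-!
# Isometric extensions over an intermediate W*-dynamical system

If a system `A` is an isometric extension of a subsystem `F`, then it is an isometric extension of
every intermediate subsystem `G`. The second half of the statement records that the explicit
formula `barMu` used for the trace of the basic construction has all the properties of this trace.
-/

namespace Pool.Agent.Results.MP_286868_an.IntermediateIsometricH75

open Pool.Agent.V7H75.WS

universe u

/-- **Q1 has a positive answer.** -/
theorem result {H : Type u} [NormedAddCommGroup H] [InnerProductSpace ℂ H] [CompleteSpace H]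
    (S : WSystem H) (F G : VonNeumannAlgebra H) (hF : S.IsSubsystem F) (hG : S.IsSubsystem G)
    (hFG : ∀ f ∈ F, f ∈ G) :
    (S.IsIsometricExtension F → S.IsIsometricExtension G) ∧
      (∀ T ∈ S.basic F, T ∈ S.N F) ∧ S.IsCanonicalTrace F (S.barMu F) :=
  ⟨fun h => WSystem.main hF hG hFG h, fun _ hT => WSystem.basic_N hF hT,
    WSystem.isCanonicalTrace hF⟩

end Pool.Agent.Results.MP_286868_an.IntermediateIsometricH75
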